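import Mathlib
import Pool.Agent.TH461.SST.Main
import Pool.Agent.TH654.FC.NC

/-!
# Growth for pairs generated by two coprime integers, every exponent below `2`
-/

set_option autoImplicit false

open Filter Topology MeasureTheory Real

namespace Pool.Agent.TH461.FGK

open Pool.Agent.TH461.SST Pool.Agent.TH461.SST.Grow
open Pool.Agent.H706R2 (dZ dZ_le_of_int round_step X X_shift G G_mono G_zero dig)
open Pool.Agent.H819

/-- growth of order `s` of the set of far points around any far point (two radii) -/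
def Gr2 (p q : ℕ) (s : ℝ) : Prop :=
  ∃ r r' : ℝ, 0 < r' ∧ ((p : ℝ) + 1) * r ≤ 1 ∧ ∃ a : ℝ, 0 < a ∧ ∃ b : ℝ, 0 < b ∧
    ∀ T : ℝ, 1 ≤ T → ∃ N : ℕ, Pool.Agent.H819.G2 p q r r' (a * T) N ∧ b * T ^ s ≤ N

lemma gr2_of_pow {p q : ℕ} {r r' : ℝ} (hr : 0 < r') (hrp : ((p : ℝ) + 1) * r ≤ 1) {A B : ℕ}
    (hA : 2 ≤ A) (hB : 2 ≤ B) {c : ℝ} (hc : 0 ≤ c)
    (h : ∀ j : ℕ, Pool.Agent.H819.G2 p q r r' (c * ((A : ℝ) ^ j - 1)) (B ^ j)) :
    Gr2 p q (Real.log B / Real.log A) := by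
  have hAR : (2 : ℝ) ≤ A := by exact_mod_cast hA
  have hBR : (2 : ℝ) ≤ B := by exact_mod_cast hB
  have hlA : 0 < Real.log (A : ℝ) := Real.log_pos (by linarith)
  have hlB : 0 < Real.log (B : ℝ) := Real.log_pos (by linarith)
  refine ⟨r, r', hr, hrp, c + 1, by linarith, 1 / B, by positivity, fun T hT => ?_⟩
  set j := ⌊Real.log T / Real.log A⌋₊ with hj
  have hlT : 0 ≤ Real.log T := Real.log_nonneg hT
  have hj1 : (A : ℝ) ^ j ≤ T := by
    have h1 : (j : ℝ) ≤ Real.log T / Real.log A := Nat.floor_le (by positivity)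
    rw [le_div_iff₀ hlA] at h1
    rw [← Real.log_le_log_iff (by positivity) (by linarith), Real.log_pow]
    exact h1
  have hj2 : Real.log T < (j + 1) * Real.log A := by
    have h1 := Nat.lt_floor_add_one (Real.log T / Real.log A)
    rwa [div_lt_iff₀ hlA] at h1
  refine ⟨B ^ j, ?_, ?_⟩
  · intro θ hθ
    obtain ⟨S, hS1, hS2⟩ := h j θ hθ
    have h1 : c * ((A : ℝ) ^ j - 1) ≤ (c + 1) * T := by
      have : c * ((A : ℝ) ^ j - 1) ≤ c * T := mul_le_mul_of_nonneg_left (by linarith) hc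
      linarith
    exact ⟨S, hS1, fun v hv => ⟨(hS2 v hv).1, (hS2 v hv).2.1.trans h1, (hS2 v hv).2.2.trans h1⟩⟩
  · have h6 : T ^ (Real.log B / Real.log A) ≤ (B : ℝ) ^ (j + 1) := by
      rw [Real.rpow_def_of_pos (by linarith), ← Real.log_le_log_iff (Real.exp_pos _) (by positivity),
        Real.log_exp, Real.log_pow]
      have h7 : Real.log T * (Real.log B / Real.log A) ≤
          ((j : ℝ) + 1) * Real.log A * (Real.log B / Real.log A) :=
        mul_le_mul_of_nonneg_right hj2.le (by positivity)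
      have h8 : ((j : ℝ) + 1) * Real.log A * (Real.log B / Real.log A) =
          ((j : ℝ) + 1) * Real.log B := by
        field_simp
      push_cast
      linarith
    push_cast
    rw [one_div, inv_mul_le_iff₀ (by linarith), ← pow_succ']
    exact h6

/-- the growth of `SST`, with an explicit radius and a geometric sequence of scales -/
theorem grow_pow {p q : ℕ} (hp : 2 ≤ p) (hq : 2 ≤ q) (hpq : Nat.Coprime p q) {r : ℝ} (hr : 0 < r)
    (hrp : ((p : ℝ) + 1) * r ≤ 1) (hrq : ((q : ℝ) + 1) * r ≤ 1) {s : ℝ} (hs : s < 2) :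
    ∃ A B : ℕ, 2 ≤ A ∧ 2 ≤ B ∧ s ≤ Real.log B / Real.log (A : ℝ) ∧ ∃ c : ℝ, 0 ≤ c ∧
      ∀ j : ℕ, G p q r (c * (A : ℝ) ^ j) (B ^ j) := by
  have hstep : StepStmt p q r := Main.step hp hq hpq hr hrp hrq
  obtain ⟨c4, hc4, C5, hC5, hst⟩ := hstep
  set K := ⌈C5 + 1⌉₊ with hK
  have hK1 : C5 + 1 ≤ K := Nat.le_ceil _
  have hK0 : (1 : ℝ) < K := by linarith
  have hK2 : 1 ≤ K := by
    have : (0 : ℝ) < K := by linarith
    exact_mod_cast this
  -- choice of `H`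
  have hlog : Tendsto (fun H : ℕ => Real.log (H : ℝ)) atTop atTop :=
    Real.tendsto_log_atTop.comp tendsto_natCast_atTop_atTop
  have hev := (((eventually_ge_atTop 2).and
    (tendsto_natCast_atTop_atTop.eventually_ge_atTop (2 / c4))).and
    (hlog.eventually_ge_atTop ((s * Real.log K - Real.log (c4 / 2)) / (2 - s))))
  obtain ⟨H, ⟨hH1, hH2⟩, hH3⟩ := hev.exists
  have hHR : (2 : ℝ) ≤ H := by exact_mod_cast hH1
  have hH0 : (0 : ℝ) < H := by linarith
  have hcH : 2 ≤ c4 * (H : ℝ) ^ 2 := by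
    rw [div_le_iff₀ hc4] at hH2
    nlinarith
  set B := ⌊c4 * (H : ℝ) ^ 2⌋₊ with hB
  have hB2 : 2 ≤ B := Nat.le_floor (by exact_mod_cast hcH)
  have hBR : c4 / 2 * (H : ℝ) ^ 2 ≤ B := by
    have := Nat.lt_floor_add_one (c4 * (H : ℝ) ^ 2)
    rw [← hB] at this
    linarith
  have hA2 : 2 ≤ K * H := by nlinarith
  have hexp : s ≤ Real.log B / Real.log ((K * H : ℕ) : ℝ) := by
    have hA2R : (2 : ℝ) ≤ ((K * H : ℕ) : ℝ) := by exact_mod_cast hA2
    have hlA : 0 < Real.log ((K * H : ℕ) : ℝ) := Real.log_pos (by linarith)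
    rw [le_div_iff₀ hlA]
    have h1 : Real.log ((K * H : ℕ) : ℝ) = Real.log K + Real.log H := by
      push_cast
      rw [Real.log_mul (by positivity) hH0.ne']
    have h2 : Real.log (c4 / 2) + 2 * Real.log H ≤ Real.log B := by
      have h3 : Real.log (c4 / 2 * (H : ℝ) ^ 2) ≤ Real.log B :=
        Real.log_le_log (by positivity) hBR
      rw [Real.log_mul (by positivity) (by positivity), Real.log_pow] at h3
      push_cast at h3
      exact h3
    rw [div_le_iff₀ (by linarith)] at hH3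
    rw [h1]
    nlinarith
  -- the growth
  have hHinv : 0 < (H : ℝ)⁻¹ := by positivity
  have hHinv1 : (H : ℝ)⁻¹ < 1 := inv_lt_one_of_one_lt₀ (by linarith)
  obtain ⟨L0, hL0⟩ := hst (H : ℝ)⁻¹ hHinv hHinv1
  set c := max L0 1 with hc
  have hc1 : 1 ≤ c := le_max_right _ _
  have hcL : L0 ≤ c := le_max_left _ _
  refine ⟨K * H, B, hA2, hB2, hexp, c, by linarith, ?_⟩
  intro j
  induction j with
  | zero =>
    simp only [pow_zero, mul_one]
    exact G_mono G_zero (by linarith) le_rfl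
  | succ j ih =>
    have hAj : (1 : ℝ) ≤ (((K * H : ℕ) : ℝ)) ^ j := by
      apply one_le_pow₀
      have : 1 ≤ K * H := by omega
      exact_mod_cast this
    have hR0 : 0 < c * (((K * H : ℕ) : ℝ)) ^ j := by positivity
    have hR : L0 ≤ c * (((K * H : ℕ) : ℝ)) ^ j * H := by
      have h1 : c ≤ c * (((K * H : ℕ) : ℝ)) ^ j := le_mul_of_one_le_right (by linarith) hAj
      have h2 : c * (((K * H : ℕ) : ℝ)) ^ j ≤ c * (((K * H : ℕ) : ℝ)) ^ j * H :=
        le_mul_of_one_le_right hR0.le (by linarith)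
      linarith
    have h3 := step hp hq hC5 (by omega) hL0 hK1 hR0 hR ih
    have e1 : ((K * H : ℕ) : ℝ) * (c * (((K * H : ℕ) : ℝ)) ^ j) =
        c * (((K * H : ℕ) : ℝ)) ^ (j + 1) := by ring
    have e2 : B * B ^ j = B ^ (j + 1) := by ring
    rw [e1, ← hB, e2] at h3
    exact h3


/-- change of lattice for the scales -/
lemma growth2_aux' {u v : ℕ} (hu : 2 ≤ u) (hv : 2 ≤ v) (huv : Nat.Coprime u v) {a b c d D : ℕ}
    (hD : a * d = b * c + D) (hD0 : 0 < D) {r : ℝ} (hr : 0 < r) (hru : ((u : ℝ) + 1) * r ≤ 1)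
    (hrv : ((v : ℝ) + 1) * r ≤ 1) {s : ℝ} (hs : s < 2) :
    ∃ A B : ℕ, 2 ≤ A ∧ 2 ≤ B ∧ s ≤ Real.log B / Real.log (A : ℝ) ∧
    ∃ r' c' : ℝ, 0 < r' ∧ r' ≤ r ∧ 0 < c' ∧ ∀ j : ℕ,
      G2 (u ^ a * v ^ b) (u ^ c * v ^ d) r r' (c' * ((A : ℝ) ^ j - 1)) (B ^ j) := by
  have hlu : 0 < log u := log_pos (by exact_mod_cast (by omega : 1 < u))
  have hlv : 0 < log v := log_pos (by exact_mod_cast (by omega : 1 < v))
  obtain ⟨A, B0, hA2, hB2, hsAB, c0, hc0, hG⟩ := grow_pow hu hv huv hr hru hrv hs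
  refine ⟨A, B0, hA2, hB2, hsAB, ?_⟩
  have hAR : (2 : ℝ) ≤ A := by exact_mod_cast hA2
  obtain ⟨j1, hj1⟩ := pow_unbounded_of_one_lt ((D : ℝ) ^ 2) (show (1 : ℝ) < B0 by
    have : (2 : ℝ) ≤ B0 := by exact_mod_cast hB2
    linarith)
  have hj1' : D ^ 2 ≤ B0 ^ j1 := by
    have : (D : ℝ) ^ 2 < ((B0 ^ j1 : ℕ) : ℝ) := by push_cast; exact hj1
    exact_mod_cast this.le
  set P : ℝ := ((u * v : ℕ) : ℝ) ^ D with hP
  have hP1 : 1 ≤ P := one_le_pow₀ (by exact_mod_cast (by nlinarith : 1 ≤ u * v))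
  set W : ℝ := ((a + b + c + d : ℕ) : ℝ) *
        (log ((u ^ a * v ^ b : ℕ) : ℝ) + log ((u ^ c * v ^ d : ℕ) : ℝ)) with hW
  have hW0 : 0 ≤ W := by
    have l1 : 0 ≤ log ((u ^ a * v ^ b : ℕ) : ℝ) := log_natCast_nonneg _
    have l2 : 0 ≤ log ((u ^ c * v ^ d : ℕ) : ℝ) := log_natCast_nonneg _
    positivity
  set B : ℝ := c0 * A ^ j1 / log u + c0 * A ^ j1 / log v + 2 with hB
  have hB0 : 0 < B := by positivity
  refine ⟨r / P, 2 * (B * W + 1), by positivity, div_le_self hr.le hP1, by positivity, ?_⟩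
  intro j
  rcases Nat.eq_zero_or_pos j with rfl | hj
  · intro θ hθ
    refine ⟨{(0, 0)}, by simp, ?_⟩
    intro s hs
    rw [Finset.mem_singleton] at hs
    subst hs
    have h1 : r / P ≤ r := div_le_self hr.le hP1
    simp [X]
    exact h1.trans hθ
  · have h1 := hG (j + j1)
    have h2j : (2 : ℝ) ≤ (A : ℝ) ^ j := by
      calc (2 : ℝ) ≤ (A : ℝ) ^ 1 := by rw [pow_one]; exact hAR
        _ ≤ (A : ℝ) ^ j := pow_le_pow_right₀ (by linarith) hj
    have h2 : G u v r (c0 * (A : ℝ) ^ (j + j1)) (D ^ 2 * B0 ^ j) := by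
      refine G_mono h1 le_rfl ?_
      calc D ^ 2 * B0 ^ j ≤ B0 ^ j1 * B0 ^ j := Nat.mul_le_mul_right _ hj1'
          _ = B0 ^ (j + j1) := by rw [pow_add]; ring
    have h3 := G2_of_G hu hv hD hD0 (by positivity) h2
    intro θ hθ
    obtain ⟨S, hS1, hS2⟩ := h3 θ hθ
    refine ⟨S, hS1, fun s hs => ?_⟩
    obtain ⟨e1, e2, e3⟩ := hS2 s hs
    have hle : (c0 * (A : ℝ) ^ (j + j1) / log u + c0 * (A : ℝ) ^ (j + j1) / log v + 2) *
        ((a + b + c + d : ℕ) : ℝ) *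
        (log ((u ^ a * v ^ b : ℕ) : ℝ) + log ((u ^ c * v ^ d : ℕ) : ℝ)) ≤
        2 * (B * W + 1) * ((A : ℝ) ^ j - 1) := by
      rw [mul_assoc, ← hW]
      have e4 : c0 * (A : ℝ) ^ (j + j1) / log u + c0 * (A : ℝ) ^ (j + j1) / log v + 2 ≤
          (A : ℝ) ^ j * B := by
        rw [hB, pow_add]
        have : (A : ℝ) ^ j * (c0 * (A : ℝ) ^ j1 / log u + c0 * (A : ℝ) ^ j1 / log v + 2)
            = c0 * ((A : ℝ) ^ j * (A : ℝ) ^ j1) / log u + c0 * ((A : ℝ) ^ j * (A : ℝ) ^ j1) / log v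
              + 2 * (A : ℝ) ^ j := by ring
        rw [this]; linarith
      have e5 := mul_le_mul_of_nonneg_right e4 hW0
      nlinarith [mul_nonneg hB0.le hW0]
    exact ⟨e1, e2.trans hle, e3.trans hle⟩

/-- `Gr2` is monotone in the exponent -/
lemma gr2_mono {p q : ℕ} {s s' : ℝ} (h : s ≤ s') (hs : Gr2 p q s') :
    Gr2 p q s := by
  obtain ⟨r, r', hr, hrp, a, ha, b, hb, hG⟩ := hs
  refine ⟨r, r', hr, hrp, a, ha, b, hb, fun T hT => ?_⟩
  obtain ⟨N, hN1, hN2⟩ := hG T hT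
  exact ⟨N, hN1, (mul_le_mul_of_nonneg_left (Real.rpow_le_rpow_of_exponent_le hT h) hb.le).trans hN2⟩

/-- **Growth with every exponent below `2`** for pairs generated by two coprime integers. -/
theorem gr2 {p q : ℕ} (h : TwoGen p q) {s : ℝ} (hs : s < 2) :
    Gr2 p q s := by
  have hp := h.two_le_left
  obtain ⟨u, v, a, b, c, d, hu, hv, huv, hpe, hqe, hne⟩ := h
  set r : ℝ := 1 / (1 + p + u + v) with hr
  have hden : (0 : ℝ) < 1 + p + u + v := by positivity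
  have hr0 : 0 < r := by positivity
  have hrp : ((p : ℝ) + 1) * r ≤ 1 := by
    rw [hr, mul_one_div, div_le_one hden]
    have h1 : (0 : ℝ) ≤ u := Nat.cast_nonneg _
    have h2 : (0 : ℝ) ≤ v := Nat.cast_nonneg _
    linarith
  have hru : ((u : ℝ) + 1) * r ≤ 1 := by
    rw [hr, mul_one_div, div_le_one hden]
    have h1 : (0 : ℝ) ≤ p := Nat.cast_nonneg _
    have h2 : (0 : ℝ) ≤ v := Nat.cast_nonneg _
    linarith
  have hrv : ((v : ℝ) + 1) * r ≤ 1 := by
    rw [hr, mul_one_div, div_le_one hden]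
    have h1 : (0 : ℝ) ≤ p := Nat.cast_nonneg _
    have h2 : (0 : ℝ) ≤ u := Nat.cast_nonneg _
    linarith
  have key : ∃ A B : ℕ, 2 ≤ A ∧ 2 ≤ B ∧ s ≤ Real.log B / Real.log (A : ℝ) ∧
      ∃ r' c' : ℝ, 0 < r' ∧ 0 < c' ∧ ∀ j : ℕ, G2 p q r r' (c' * ((A : ℝ) ^ j - 1)) (B ^ j) := by
    rcases lt_or_gt_of_ne hne with hlt | hlt
    · obtain ⟨D, hD⟩ := Nat.exists_eq_add_of_lt hlt
      obtain ⟨A, B, hA, hB, hAB, r', c', h1, _, h2, h3⟩ := growth2_aux' hv hu huv.symm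
        (a := b) (b := a) (c := d) (d := c) (D := D + 1) (by omega) (by omega) hr0 hrv hru hs
      refine ⟨A, B, hA, hB, hAB, r', c', h1, h2, ?_⟩
      rw [hpe, hqe, mul_comm (u ^ a), mul_comm (u ^ c)]
      exact h3
    · obtain ⟨D, hD⟩ := Nat.exists_eq_add_of_lt hlt
      obtain ⟨A, B, hA, hB, hAB, r', c', h1, _, h2, h3⟩ := growth2_aux' hu hv huv
        (a := a) (b := b) (c := c) (d := d) (D := D + 1) (by omega) (by omega) hr0 hru hrv hs
      refine ⟨A, B, hA, hB, hAB, r', c', h1, h2, ?_⟩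
      rw [hpe, hqe]
      exact h3
  obtain ⟨A, B, hA, hB, hAB, r', c', h1, h2, h3⟩ := key
  exact gr2_mono hAB (gr2_of_pow h1 hrp hA hB h2.le h3)

/-- non-concentration at `0` from growth (two radii) -/
theorem nonconc2 {p q : ℕ} (hp : 2 ≤ p) (hq : 2 ≤ q) {s : ℝ}
    (hs : Gr2 p q s) :
    ∃ r : ℝ, 0 < r ∧ ∃ C : ℝ, ∀ μ : Measure UnitAddCircle, IsProbabilityMeasure μ →
        MeasurePreserving (fun x : UnitAddCircle => p • x) μ μ →
        MeasurePreserving (fun x : UnitAddCircle => q • x) μ μ →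
        ∀ t : ℝ, 1 ≤ t →
          μ.real {x : UnitAddCircle | Real.exp (-t) ≤ ‖x‖} ≤
            C * t ^ (2 - s) * μ.real {x : UnitAddCircle | r ≤ ‖x‖} := by
  obtain ⟨r0, r, hr, hrp, a, ha, b, hb, hG⟩ := hs
  have hlq : 0 < Real.log q := Real.log_pos (by exact_mod_cast (by omega : 1 < q))
  have hlp : 0 < Real.log p := Real.log_pos (by exact_mod_cast (by omega : 1 < p))
  set K1 : ℝ := 2 * a / Real.log p + 1 / Real.log p + 2 with hK1
  set K2 : ℝ := 2 * a / Real.log q + 1 with hK2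
  have hK1p : 0 < K1 := by positivity
  have hK2p : 0 < K2 := by positivity
  refine ⟨r, hr, K1 * K2 / b, fun μ hμ hμp hμq t ht => ?_⟩
  obtain ⟨N, hGN, hN⟩ := hG t ht
  set R : ℝ := a * t with hR
  have hR0 : 0 ≤ R := by positivity
  set A := ⌊R / Real.log p⌋₊ with hA
  set B := ⌊R / Real.log q⌋₊ with hB
  set I := ⌈t / Real.log p⌉₊ with hI
  have hA1 : R < (A + 1) * Real.log p := by
    have := Nat.lt_floor_add_one (R / Real.log p)
    rwa [div_lt_iff₀ hlp] at this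
  have hB1 : R < (B + 1) * Real.log q := by
    have := Nat.lt_floor_add_one (R / Real.log q)
    rwa [div_lt_iff₀ hlq] at this
  have hI1 : t ≤ I * Real.log p := by
    have := Nat.le_ceil (t / Real.log p)
    rwa [div_le_iff₀ hlp] at this
  have hA2 : (A : ℝ) ≤ a * t / Real.log p := Nat.floor_le (by positivity)
  have hB2 : (B : ℝ) ≤ a * t / Real.log q := Nat.floor_le (by positivity)
  have hI2 : (I : ℝ) ≤ t / Real.log p + 1 := (Nat.ceil_lt_add_one (by positivity)).le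
  have h1 := measure_ineq2 hp hq hrp hGN hA1 hB1 hI1 μ hμp hμq
  have h2 : (2 * (A : ℝ) + I + 1) ≤ K1 * t := by
    have : K1 * t = 2 * (a * t / Real.log p) + t / Real.log p + 2 * t := by rw [hK1]; ring
    rw [this]; linarith
  have h3 : (2 * (B : ℝ) + 1) ≤ K2 * t := by
    have : K2 * t = 2 * (a * t / Real.log q) + t := by rw [hK2]; ring
    rw [this]; linarith
  have h4 : ((2 * (A : ℝ) + I + 1) * (2 * B + 1)) ≤ (K1 * t) * (K2 * t) :=
    mul_le_mul h2 h3 (by positivity) (by positivity)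
  have hF0 : 0 ≤ μ.real {x : UnitAddCircle | r ≤ ‖x‖} := measureReal_nonneg
  have hE0 : 0 ≤ μ.real {x : UnitAddCircle | Real.exp (-t) ≤ ‖x‖} := measureReal_nonneg
  have hts : 0 < t ^ s := Real.rpow_pos_of_pos (by linarith) _
  have h5 : b * t ^ s * μ.real {x : UnitAddCircle | Real.exp (-t) ≤ ‖x‖} ≤
      (K1 * K2) * t ^ 2 * μ.real {x : UnitAddCircle | r ≤ ‖x‖} := by
    calc b * t ^ s * μ.real {x : UnitAddCircle | Real.exp (-t) ≤ ‖x‖}
        ≤ N * μ.real {x : UnitAddCircle | Real.exp (-t) ≤ ‖x‖} := mul_le_mul_of_nonneg_right hN hE0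
      _ ≤ _ := h1
      _ ≤ (K1 * t) * (K2 * t) * μ.real {x : UnitAddCircle | r ≤ ‖x‖} :=
          mul_le_mul_of_nonneg_right h4 hF0
      _ = _ := by ring
  have h10 : t ^ (2 - s) = t ^ 2 / t ^ s := by
    rw [Real.rpow_sub (by linarith)]; norm_num
  rw [h10]
  have h11 : μ.real {x : UnitAddCircle | Real.exp (-t) ≤ ‖x‖} ≤
      ((K1 * K2) * t ^ 2 * μ.real {x : UnitAddCircle | r ≤ ‖x‖}) / (b * t ^ s) := by
    rw [le_div_iff₀ (by positivity)]; linarith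
  refine h11.trans (le_of_eq ?_)
  field_simp

/-- **Non-concentration**: there is a threshold `κ₀ < 1`, equal to `0` for pairs generated by two
coprime integers, such that every exponent above `κ₀` works. -/
theorem nc {p q : ℕ} (hp : 2 ≤ p) (hq : 2 ≤ q)
    (hirr : Irrational (Real.log (p : ℝ) / Real.log (q : ℝ))) :
    ∃ κ₀ : ℝ, 0 ≤ κ₀ ∧ κ₀ < 1 ∧ (TwoGen p q → κ₀ = 0) ∧
      ∀ κ : ℝ, κ₀ < κ → Pool.Agent.TH654.FC.NC p q κ := by
  by_cases h : TwoGen p q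
  · refine ⟨0, le_rfl, one_pos, fun _ => rfl, fun κ hκ => ?_⟩
    obtain ⟨r, hr, C, hC⟩ := nonconc2 hp hq (gr2 h (s := 2 - κ) (by linarith))
    refine Pool.Agent.TH654.FC.nc_of_radius hp hq hirr (κ := κ) (ρ := r) (C := C)
      (fun μ h1 h2 h3 t ht => ?_) hr
    have := hC μ h1 h2 h3 t ht
    rwa [sub_sub_cancel] at this
  · obtain ⟨κ, h0, h1, -, hNC⟩ := Pool.Agent.TH654.FC.nonconc hp hq hirr
    refine ⟨κ, h0.le, h1, fun h' => absurd h' h, fun κ' hκ' => ?_⟩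
    obtain ⟨C, hC⟩ := hNC
    refine ⟨|C|, fun μ hμ hμp hμq t ht => (hC μ hμ hμp hμq t ht).trans ?_⟩
    have a1 : t ^ κ ≤ t ^ κ' := Real.rpow_le_rpow_of_exponent_le ht hκ'.le
    have a2 : 0 ≤ t ^ κ := Real.rpow_nonneg (by linarith) _
    have a3 : 0 ≤ μ.real {x : UnitAddCircle | 1 / (1 + max (p : ℝ) (q : ℝ)) ≤ ‖x‖} :=
      measureReal_nonneg
    refine mul_le_mul_of_nonneg_right ?_ a3
    exact mul_le_mul (le_abs_self C) a1 a2 (abs_nonneg C)

end Pool.Agent.TH461.FGK
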