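import Mathlib
import Pool.Agent.TH461.FGK.Two
import Pool.Agent.TH654.FC.Open
import Pool.Agent.H847R3.SuppC
import Pool.Agent.H847R3.SuppE

/-!
# Quantitative support and visits to open sets, every exponent `κ > κ₀`
-/

set_option autoImplicit false

open Set Filter Topology MeasureTheory

namespace Pool.Agent.TH461.FGK

open Pool.Agent.H819 Pool.Agent.H847R3.XpXq

/-- growth for every exponent below `2 - κ₀` -/
theorem gr2_all {p q : ℕ} (hp : 2 ≤ p) (hq : 2 ≤ q)
    (hirr : Irrational (Real.log (p : ℝ) / Real.log (q : ℝ))) :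
    ∃ κ₀ : ℝ, 0 ≤ κ₀ ∧ κ₀ < 1 ∧ (TwoGen p q → κ₀ = 0) ∧
      ∀ κ : ℝ, κ₀ < κ → Pool.Agent.TH461.FGK.Gr2 p q (2 - κ) := by
  by_cases h : TwoGen p q
  · exact ⟨0, le_rfl, one_pos, fun _ => rfl, fun κ hκ => gr2 h (by linarith)⟩
  · obtain ⟨s, hs1, hs2, -, hs⟩ := exists_gr hp hq hirr
    refine ⟨2 - s, by linarith, by linarith, fun h' => absurd h' h, fun κ hκ => ?_⟩
    exact gr2_mono (by linarith) (Pool.Agent.H847R3.XpXq.Gr2.of_Gr hs)

/-- non-concentration from growth -/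
theorem nc_of_gr2 {p q : ℕ} (hp : 2 ≤ p) (hq : 2 ≤ q)
    (hirr : Irrational (Real.log (p : ℝ) / Real.log (q : ℝ))) {κ : ℝ}
    (h : Pool.Agent.TH461.FGK.Gr2 p q (2 - κ)) : Pool.Agent.TH654.FC.NC p q κ := by
  obtain ⟨r, hr, C, hC⟩ := nonconc2 hp hq h
  refine Pool.Agent.TH654.FC.nc_of_radius hp hq hirr (κ := κ) (ρ := r) (C := C)
    (fun μ h1 h2 h3 t ht => ?_) hr
  have := hC μ h1 h2 h3 t ht
  rwa [sub_sub_cancel] at this

/-- **Quantitative support.** -/
theorem support2 {p q : ℕ} (hp : 2 ≤ p) (hq : 2 ≤ q)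
    (hirr : Irrational (Real.log (p : ℝ) / Real.log (q : ℝ))) {s : ℝ} (hs2 : s < 2)
    (hs : Pool.Agent.TH461.FGK.Gr2 p q s) {U : Set TT} (hU : IsOpen U) (hne : U.Nonempty) :
    ∃ C : ℝ, 0 < C ∧
        ∀ μ : Measure TT, IsProbabilityMeasure μ →
          MeasurePreserving (fun x : TT => p • x) μ μ →
          MeasurePreserving (fun x : TT => q • x) μ μ →
          ∀ t : ℝ, 1 ≤ t →
            μ.real {x : TT | ∀ k ∈ KU p q U, Real.exp (-t) ≤ dist x k} ≤
              C * t ^ (2 - s) * μ.real U := by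
  obtain ⟨r, hr, C, hC⟩ := Pool.Agent.TH461.FGK.nonconc2 hp hq hs
  set κ : ℝ := 2 - s with hκ
  have hκ0 : 0 < κ := by rw [hκ]; linarith
  obtain ⟨d, hd, hdK⟩ := exists_den hp (KU_finite hp hq hirr hU hne) (KU_inv p q U)
  have hd0 : (0 : ℝ) < d := by exact_mod_cast hd
  set c0 : ℝ := min (r / d) (1 / (2 * d)) with hc0
  have hc0' : 0 < c0 := lt_min (by positivity) (by positivity)
  obtain ⟨n, hn⟩ := hit (p := p) (q := q) hU hc0'
  refine ⟨(|C| + 1) * (n + 1), by positivity, fun μ hμ h1 h2 t ht => ?_⟩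
  set E : Set TT := {x : TT | ∀ k ∈ KU p q U, c0 ≤ dist x k} with hE
  have hEn := hn μ hμ h1 h2
  have hmd : Measurable fun x : TT => d • x := (continuous_const_smul d).measurable
  have hν : IsProbabilityMeasure (μ.map fun x : TT => d • x) :=
    Measure.isProbabilityMeasure_map hmd.aemeasurable
  have key := hC _ hν (map_inv h1) (map_inv h2) t ht
  have hm1 : MeasurableSet {x : TT | Real.exp (-t) ≤ ‖x‖} :=
    (isClosed_le continuous_const continuous_norm).measurableSet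
  have hm2 : MeasurableSet {x : TT | r ≤ ‖x‖} :=
    (isClosed_le continuous_const continuous_norm).measurableSet
  rw [map_measureReal_apply hmd hm1, map_measureReal_apply hmd hm2] at key
  -- far from the torsion points
  have hsub2 : (fun x : TT => d • x) ⁻¹' {x : TT | r ≤ ‖x‖} ⊆ E := by
    intro x hx k hk
    by_contra hcon
    push Not at hcon
    have h3 : dist x k < r / d := lt_of_lt_of_le hcon (min_le_left _ _)
    have h4 : d • x = d • (x - k) := by rw [nsmul_sub, hdK k hk, sub_zero]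
    have h5 : r ≤ ‖d • x‖ := hx
    rw [h4] at h5
    have h6 := norm_smul_le d (x - k)
    rw [dist_eq_norm] at h3
    have h7 : (d : ℝ) * ‖x - k‖ < d * (r / d) := mul_lt_mul_of_pos_left h3 hd0
    rw [mul_div_cancel₀ _ hd0.ne'] at h7
    linarith
  have hsub1 : {x : TT | ∀ k ∈ KU p q U, Real.exp (-t) ≤ dist x k} ⊆
      ((fun x : TT => d • x) ⁻¹' {x : TT | Real.exp (-t) ≤ ‖x‖}) ∪ E := by
    intro x hx
    by_cases h3 : Real.exp (-t) ≤ ‖d • x‖
    · exact Or.inl h3
    right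
    push Not at h3
    obtain ⟨s, hs, hxs⟩ := near_torsion hd x
    have hexp : Real.exp (-t) ≤ 1 / 2 := by
      have e1 : Real.exp (-t) ≤ Real.exp (-1) := Real.exp_le_exp.2 (by linarith)
      have e2 : Real.exp (-1) < 1 / 2 := by
        have := Real.exp_neg_one_lt_d9
        linarith
      linarith
    have hxs2 : dist x s < Real.exp (-t) / d := lt_of_le_of_lt hxs (by gcongr)
    have hd1 : (1 : ℝ) ≤ d := by exact_mod_cast hd
    have hle : Real.exp (-t) / d ≤ Real.exp (-t) := div_le_self (Real.exp_pos _).le hd1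
    intro k hk
    by_cases hsk : s = k
    · subst hsk
      have := hx s hk
      linarith
    · have h4 : 1 / (d : ℝ) ≤ ‖s - k‖ := by
        apply torsion_norm hd _ (sub_ne_zero.2 hsk)
        rw [nsmul_sub, hs, hdK k hk, sub_zero]
      rw [← dist_eq_norm] at h4
      have h5 : dist s k ≤ dist x s + dist x k := dist_triangle_left _ _ _
      have h6 : Real.exp (-t) / d ≤ (1 / 2) / d := by gcongr
      have h7 : c0 ≤ 1 / (2 * d) := min_le_right _ _
      have h8 : 1 / (2 * (d : ℝ)) = (1 / 2) / d := by field_simp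
      have h9 : 1 / (d : ℝ) = (1 / 2) / d + (1 / 2) / d := by field_simp; norm_num
      linarith
  have hE1 : μ.real ((fun x : TT => d • x) ⁻¹' {x : TT | r ≤ ‖x‖}) ≤ μ.real E :=
    measureReal_mono hsub2 (measure_ne_top μ _)
  have hU0 : 0 ≤ μ.real U := measureReal_nonneg
  have hE0 : 0 ≤ μ.real E := measureReal_nonneg
  have htk : 1 ≤ t ^ κ := Real.one_le_rpow ht hκ0.le
  calc μ.real {x : TT | ∀ k ∈ KU p q U, Real.exp (-t) ≤ dist x k}
      ≤ μ.real (((fun x : TT => d • x) ⁻¹' {x : TT | Real.exp (-t) ≤ ‖x‖}) ∪ E) :=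
        measureReal_mono hsub1 (measure_ne_top μ _)
    _ ≤ μ.real ((fun x : TT => d • x) ⁻¹' {x : TT | Real.exp (-t) ≤ ‖x‖}) + μ.real E :=
        measureReal_union_le _ _
    _ ≤ C * t ^ κ * μ.real ((fun x : TT => d • x) ⁻¹' {x : TT | r ≤ ‖x‖}) + μ.real E := by
        linarith
    _ ≤ |C| * t ^ κ * μ.real E + t ^ κ * μ.real E := by
        have a1 : C * t ^ κ * μ.real ((fun x : TT => d • x) ⁻¹' {x : TT | r ≤ ‖x‖}) ≤
            |C| * t ^ κ * μ.real ((fun x : TT => d • x) ⁻¹' {x : TT | r ≤ ‖x‖}) := by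
          have := le_abs_self C
          gcongr
        have a2 : |C| * t ^ κ * μ.real ((fun x : TT => d • x) ⁻¹' {x : TT | r ≤ ‖x‖}) ≤
            |C| * t ^ κ * μ.real E := by gcongr
        have a3 : μ.real E ≤ t ^ κ * μ.real E := le_mul_of_one_le_left hE0 htk
        linarith
    _ = (|C| + 1) * t ^ κ * μ.real E := by ring
    _ ≤ (|C| + 1) * t ^ κ * (n * μ.real U) := by gcongr
    _ ≤ (|C| + 1) * t ^ κ * ((n + 1) * μ.real U) := by
        gcongr
        linarith
    _ = (|C| + 1) * (n + 1) * t ^ κ * μ.real U := by ring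

/-- **All irrational orbits**, infinitely often, with a uniform constant. -/
theorem io2 {p q : ℕ} (hp : 2 ≤ p) (hq : 2 ≤ q)
    (hirr : Irrational (Real.log (p : ℝ) / Real.log (q : ℝ))) {s : ℝ}
    (hs : Pool.Agent.H847R3.XpXq.Gr2 p q s) {U : Set TT} (hU : IsOpen U) (hne : U.Nonempty) :
    ∃ c : ℝ, 0 < c ∧ ∀ x : ℝ, Irrational x → ∃ᶠ n : ℕ in atTop, c * (n : ℝ) ^ s ≤
      ((hits p q n U (x : TT)).ncard : ℝ) := by
  obtain ⟨d, hd, a, ha, hcore⟩ := core2 hp hq hirr hs hU hne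
  have hlq : 0 < Real.log q := Real.log_pos (by exact_mod_cast (by omega : 1 < q))
  have hlp : 0 < Real.log p := Real.log_pos (by exact_mod_cast (by omega : 1 < p))
  obtain ⟨K, hK, c, hc, n0, hn0⟩ := hcore 1 zero_le_one
  refine ⟨c, hc, fun x hx => ?_⟩
  by_contra hcon
  rw [Filter.not_frequently, eventually_atTop] at hcon
  obtain ⟨n1, hn1⟩ := hcon
  set f : ℕ → ℕ := fun n => cen p q d a (n / K) with hf
  -- the multiples are very close to `0`
  have hsmall : ∀ n, n0 + n1 ≤ n → ‖f n • (x : TT)‖ < Real.exp (-(1 * (n / K))) := by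
    intro n hn
    by_contra h
    push Not at h
    exact hn1 n (by omega) (hn0 n (by omega) _ h)
  -- bounded ratios
  set ρ : ℕ := p ^ (⌊a / K / Real.log p⌋₊ + 1) * q ^ (⌊a / K / Real.log q⌋₊ + 1) with hρ
  have hdiff : ∀ (l : ℝ), 0 < l → ∀ n : ℕ, ∃ e : ℕ, e ≤ ⌊a / K / l⌋₊ + 1 ∧
      ⌊a * (((n + 1 : ℕ) : ℝ) / K) / l⌋₊ = ⌊a * ((n : ℝ) / K) / l⌋₊ + e := by
    intro l hl n
    have e1 : a * (((n + 1 : ℕ) : ℝ) / K) / l = a * ((n : ℝ) / K) / l + a / K / l := by
      push_cast; field_simp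
    have h1 : ⌊a * ((n : ℝ) / K) / l⌋₊ ≤ ⌊a * (((n + 1 : ℕ) : ℝ) / K) / l⌋₊ := by
      apply Nat.floor_mono
      rw [e1]
      have : 0 ≤ a / K / l := by positivity
      linarith
    obtain ⟨e, he⟩ := Nat.exists_eq_add_of_le h1
    refine ⟨e, ?_, he⟩
    have h2 : (⌊a * (((n + 1 : ℕ) : ℝ) / K) / l⌋₊ : ℝ) ≤ a * (((n + 1 : ℕ) : ℝ) / K) / l :=
      Nat.floor_le (by positivity)
    have h3 := Nat.lt_floor_add_one (a * ((n : ℝ) / K) / l)
    have h4 := Nat.lt_floor_add_one (a / K / l)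
    rw [he] at h2
    push_cast at h2
    have h5 : (e : ℝ) < ⌊a / K / l⌋₊ + 1 + 1 := by
      have := e1
      push_cast at this
      linarith
    have h6 : e < ⌊a / K / l⌋₊ + 1 + 1 := by exact_mod_cast h5
    omega
  have hstep : ∀ n, ∃ k : ℕ, 1 ≤ k ∧ k ≤ ρ ∧ f (n + 1) = f n * k := by
    intro n
    obtain ⟨e1, h1, h1'⟩ := hdiff _ hlp n
    obtain ⟨e2, h2, h2'⟩ := hdiff _ hlq n
    refine ⟨p ^ e1 * q ^ e2, Nat.one_le_iff_ne_zero.2 (by positivity), ?_, ?_⟩
    · exact Nat.mul_le_mul (Nat.pow_le_pow_right (by omega) h1) (Nat.pow_le_pow_right (by omega) h2)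
    · simp only [hf, cen]
      rw [h1', h2']
      ring
  have hρ0 : 0 < ρ := by positivity
  -- exponentials are eventually small
  have hlim : Tendsto (fun n : ℕ => Real.exp (-(1 * ((n : ℝ) / K)))) atTop (𝓝 0) := by
    apply Real.tendsto_exp_neg_atTop_nhds_zero.comp
    simp only [one_mul]
    exact tendsto_natCast_atTop_atTop.atTop_div_const hK
  have hev1 : ∀ᶠ n : ℕ in atTop, Real.exp (-(1 * ((n : ℝ) / K))) < 1 / (2 * ρ) :=
    hlim.eventually (gt_mem_nhds (by positivity))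
  obtain ⟨n2, hn2⟩ := eventually_atTop.1 hev1
  set n3 := n0 + n1 + n2 with hn3
  have hmono : ∀ n, n3 ≤ n → ‖f n3 • (x : TT)‖ ≤ ‖f n • (x : TT)‖ := by
    intro n hn
    induction n, hn using Nat.le_induction with
    | base => exact le_rfl
    | succ n hn ih =>
      obtain ⟨k, hk1, hk2, hk3⟩ := hstep n
      refine ih.trans ?_
      rw [hk3, mul_comm, mul_nsmul']
      apply norm_step hk1
      have h1 := hsmall n (by omega)
      have h2 := hn2 n (by omega)
      have h3 : (k : ℝ) ≤ ρ := by exact_mod_cast hk2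
      have hρR : (0 : ℝ) < ρ := by exact_mod_cast hρ0
      calc (k : ℝ) * ‖f n • (x : TT)‖ ≤ ρ * ‖f n • (x : TT)‖ := by gcongr
        _ < ρ * (1 / (2 * ρ)) := by
          apply mul_lt_mul_of_pos_left (h1.trans h2) hρR
        _ = 1 / 2 := by field_simp
  have hpos : 0 < ‖f n3 • (x : TT)‖ := by
    rw [norm_pos_iff]
    intro h0
    rw [← AddCircle.coe_nsmul, AddCircle.coe_eq_zero_iff] at h0
    obtain ⟨m, hm⟩ := h0
    simp only [zsmul_eq_mul, mul_one, nsmul_eq_mul] at hm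
    have hf0 : f n3 ≠ 0 := by
      simp only [hf, cen]
      positivity
    have : Irrational ((f n3 : ℝ) * x) := hx.natCast_mul hf0
    exact this ⟨m, by rw [← hm]; push_cast; rfl⟩
  have hev2 : ∀ᶠ n : ℕ in atTop, Real.exp (-(1 * ((n : ℝ) / K))) < ‖f n3 • (x : TT)‖ :=
    hlim.eventually (gt_mem_nhds hpos)
  obtain ⟨n4, hn4⟩ := eventually_atTop.1 hev2
  have h1 := hn4 (n3 + n4) (by omega)
  have h2 := hmono (n3 + n4) (by omega)
  have h3 := hsmall (n3 + n4) (by omega)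
  linarith

end Pool.Agent.TH461.FGK
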