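import Mathlib
import Pool.Agent.TH461.FGK.Sup
import Pool.Agent.TH419.FS.Rid

/-!
# Words in the multiples of algebraic irrational numbers, in all windows
-/

set_option autoImplicit false

open Set Filter Topology MeasureTheory

namespace Pool.Agent.TH461.FGK

open Pool.Agent.H819 Pool.Agent.H847R3.XpXq

/-- constants are absorbed in the exponent -/
lemma absorb {c a b : ℝ} (hc : 0 < c) (hab : a < b) :
    ∀ᶠ n : ℕ in atTop, (n : ℝ) ^ a ≤ c * (n : ℝ) ^ b := by
  have hlim : Tendsto (fun n : ℕ => (n : ℝ) ^ (b - a)) atTop atTop :=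
    (tendsto_rpow_atTop (by linarith)).comp tendsto_natCast_atTop_atTop
  filter_upwards [hlim.eventually_ge_atTop (1 / c), eventually_ge_atTop 1] with n hn hn1
  have hn0 : (0 : ℝ) < n := by exact_mod_cast hn1
  rw [Real.rpow_sub hn0, div_le_div_iff₀ hc (Real.rpow_pos_of_pos hn0 _)] at hn
  linarith

/-- visits of the orbit of an algebraic irrational number in all windows -/
theorem alg_hits {p q : ℕ} (hp : 2 ≤ p) (hq : 2 ≤ q)
    (hirr : Irrational (Real.log (p : ℝ) / Real.log (q : ℝ))) {s : ℝ}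
    (hs : Pool.Agent.H847R3.XpXq.Gr2 p q s) {U : Set TT} (hU : IsOpen U) (hne : U.Nonempty) {ξ : ℝ}
    (hξ : Irrational ξ) (halg : IsAlgebraic ℚ ξ) {R : ℝ} (hR : 0 ≤ R) :
    ∃ c : ℝ, 0 < c ∧ ∀ᶠ n : ℕ in atTop, ∀ i0 j0 : ℕ, (i0 : ℝ) ≤ R * n → (j0 : ℝ) ≤ R * n →
      c * (n : ℝ) ^ s ≤ ((hits p q n U ((p ^ i0 * q ^ j0) • (ξ : TT))).ncard : ℝ) := by
  obtain ⟨d, hd, a, ha, hcore⟩ := core2 hp hq hirr hs hU hne
  have hd0 : (0 : ℝ) < d := by exact_mod_cast hd
  have hlq : 0 < Real.log q := Real.log_pos (by exact_mod_cast (by omega : 1 < q))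
  have hlp : 0 < Real.log p := Real.log_pos (by exact_mod_cast (by omega : 1 < p))
  obtain ⟨K, hK, c, hc, n0, hn0⟩ := hcore 1 zero_le_one
  -- Ridout
  set Q : ℝ := 2 * a + R * K * (Real.log p + Real.log q) + 1 with hQ
  have hQpos : 0 < Q := by positivity
  set η : ℝ := 1 / (2 * Q) with hη
  have hη0 : 0 < η := by positivity
  obtain ⟨κ, hκ, hrid⟩ := Pool.Agent.TH419.FS.ridout_units p q hp hq ((d : ℝ) * ξ)
    ((isAlgebraic_natCast d).mul halg) (hξ.natCast_mul (by omega)) η hη0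
  refine ⟨c, hc, ?_⟩
  -- threshold
  have hlim : Tendsto (fun n : ℕ => (n : ℝ) / K / 2) atTop atTop := by
    apply Tendsto.atTop_div_const (by norm_num)
    exact tendsto_natCast_atTop_atTop.atTop_div_const hK
  filter_upwards [eventually_ge_atTop n0, hlim.eventually_ge_atTop (η * Real.log p - Real.log κ)]
    with n hn hn1 i0 j0 hi hj
  apply hn0 n hn
  set T : ℝ := n / K with hT
  have hT0 : 0 ≤ T := by positivity
  set A := ⌊a * T / Real.log p⌋₊ + 1 with hA
  set B := ⌊a * T / Real.log q⌋₊ with hB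
  have hA2 : (A : ℝ) * Real.log p ≤ a * T + Real.log p := by
    have h1 : (⌊a * T / Real.log p⌋₊ : ℝ) ≤ a * T / Real.log p := Nat.floor_le (by positivity)
    have h2 : (A : ℝ) ≤ a * T / Real.log p + 1 := by
      rw [hA]; push_cast; linarith
    have := mul_le_mul_of_nonneg_right h2 hlp.le
    rw [add_mul, div_mul_cancel₀ _ hlp.ne', one_mul] at this
    exact this
  have hB2 : (B : ℝ) * Real.log q ≤ a * T := by
    have h1 : (B : ℝ) ≤ a * T / Real.log q := Nat.floor_le (by positivity)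
    have := mul_le_mul_of_nonneg_right h1 hlq.le
    rwa [div_mul_cancel₀ _ hlq.ne'] at this
  -- the point
  have e1 : cen p q d a T • ((p ^ i0 * q ^ j0) • (ξ : TT)) =
      (((p : ℝ) ^ (A + i0) * (q : ℝ) ^ (B + j0)) * ((d : ℝ) * ξ) : ℝ) := by
    rw [← mul_nsmul', ← AddCircle.coe_nsmul, nsmul_eq_mul]
    unfold cen
    rw [← hA, ← hB]
    congr 1
    push_cast
    rw [pow_add, pow_add]
    ring
  rw [e1, UnitAddCircle.norm_eq]
  have h1 := hrid (A + i0) (B + j0)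
    (round (((p : ℝ) ^ (A + i0) * (q : ℝ) ^ (B + j0)) * ((d : ℝ) * ξ)))
  set Z : ℝ := (p : ℝ) ^ (A + i0) * (q : ℝ) ^ (B + j0) with hZ
  have hZ0 : 0 < Z := by positivity
  have hlZ : Real.log Z ≤ Q * T + Real.log p := by
    rw [hZ, Real.log_mul (by positivity) (by positivity), Real.log_pow, Real.log_pow]
    push_cast
    have e2 : R * n = R * K * T := by rw [hT]; field_simp
    rw [e2] at hi hj
    have h3 := mul_le_mul_of_nonneg_right hi hlp.le
    have h4 := mul_le_mul_of_nonneg_right hj hlq.le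
    rw [hQ]
    nlinarith
  have hZη : Z ^ η ≤ Real.exp (T / 2 + η * Real.log p) := by
    rw [Real.rpow_def_of_pos hZ0]
    apply Real.exp_le_exp.2
    have h3 : η * Q = 1 / 2 := by rw [hη]; field_simp
    calc Real.log Z * η ≤ (Q * T + Real.log p) * η := mul_le_mul_of_nonneg_right hlZ hη0.le
      _ = (η * Q) * T + η * Real.log p := by ring
      _ = T / 2 + η * Real.log p := by rw [h3]; ring
  have h5 : κ ≤ Real.exp (T / 2 + η * Real.log p) * |Z * ((d : ℝ) * ξ) -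
      round (Z * ((d : ℝ) * ξ))| := by
    refine h1.trans ?_
    exact mul_le_mul_of_nonneg_right hZη (abs_nonneg _)
  have h6 : Real.exp (-(1 * T)) * Real.exp (T / 2 + η * Real.log p) ≤ κ := by
    rw [← Real.exp_add, ← Real.exp_log hκ]
    apply Real.exp_le_exp.2
    linarith
  have h7 : Real.exp (-(1 * T)) * Real.exp (T / 2 + η * Real.log p) ≤
      |Z * ((d : ℝ) * ξ) - round (Z * ((d : ℝ) * ξ))| * Real.exp (T / 2 + η * Real.log p) := by
    rw [mul_comm (|_|)]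
    exact h6.trans h5
  exact le_of_mul_le_mul_right h7 (Real.exp_pos _)

/-- Occurrences of the word of length `k` with value `W` in the multiples `q ^ n ξ`, in every
window. -/
theorem alg_words {b q : ℕ} (hb : 2 ≤ b) (hq : 2 ≤ q)
    (hirr : Irrational (Real.log (b : ℝ) / Real.log (q : ℝ))) {s s' : ℝ} (hss : s' < s)
    (hs : Pool.Agent.H847R3.XpXq.Gr2 b q s) {ξ : ℝ}
    (hξ : Irrational ξ) (halg : IsAlgebraic ℚ ξ) (k W : ℕ) (hW : W < b ^ k) {R : ℝ} (hR : 0 ≤ R) :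
    ∀ᶠ M : ℕ in atTop, ∀ n0 i0 : ℕ, (n0 : ℝ) ≤ R * M → (i0 : ℝ) ≤ R * M →
      (M : ℝ) ^ s' ≤
      (((Finset.Ico n0 (n0 + M) ×ˢ Finset.Ico i0 (i0 + M)).filter (fun u : ℕ × ℕ =>
        ⌊(b : ℝ) ^ (u.2 + k) * ((q : ℝ) ^ u.1 * ξ)⌋ % ((b : ℤ) ^ k) = (W : ℤ))).card : ℝ) := by
  classical
  have hbk : (0 : ℝ) < (b : ℝ) ^ k := by positivity
  set V : Set ℝ := Set.Ioo ((W : ℝ) / (b : ℝ) ^ k) (((W : ℝ) + 1) / (b : ℝ) ^ k) with hV
  set U : Set TT := (fun z : ℝ => (z : TT)) '' V with hU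
  have hUo : IsOpen U := by
    have : IsOpenMap (fun z : ℝ => (z : TT)) := QuotientAddGroup.isOpenMap_coe
    exact this V isOpen_Ioo
  have hne : U.Nonempty := by
    refine ⟨(((W : ℝ) + 1 / 2) / (b : ℝ) ^ k : ℝ), ((W : ℝ) + 1 / 2) / (b : ℝ) ^ k, ⟨?_, ?_⟩, rfl⟩
    · gcongr; linarith
    · gcongr; norm_num
  obtain ⟨c, hc, hev⟩ := alg_hits hb hq hirr hs hUo hne hξ halg (R := 2 * R) (by positivity)
  have hs0 : (0 : ℝ) < 2 ^ |s| := by positivity
  have hc' : 0 < c / 2 ^ |s| := by positivity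
  have hev2 := (tendsto_sub_atTop_nat 1).eventually hev
  filter_upwards [hev2, eventually_ge_atTop 2, absorb hc' hss] with M hM hM2 hab n0 i0 hn0 hi0
  have hM2R : (2 : ℝ) ≤ M := by exact_mod_cast hM2
  have hcast : ((M - 1 : ℕ) : ℝ) = (M : ℝ) - 1 := by
    rw [Nat.cast_sub (by omega)]; simp
  have hle : (M : ℝ) ^ s / 2 ^ |s| ≤ ((M - 1 : ℕ) : ℝ) ^ s := by
    rw [hcast, div_le_iff₀ hs0]
    have hM1 : (0 : ℝ) < (M : ℝ) - 1 := by linarith
    rcases le_total 0 s with h | h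
    · rw [abs_of_nonneg h, ← Real.mul_rpow hM1.le (by norm_num)]
      exact Real.rpow_le_rpow (by linarith) (by linarith) h
    · have h1 : (M : ℝ) ^ s ≤ ((M : ℝ) - 1) ^ s :=
        Real.rpow_le_rpow_of_nonpos hM1 (by linarith) h
      have h2 : (1 : ℝ) ≤ 2 ^ |s| := Real.one_le_rpow (by norm_num) (abs_nonneg _)
      have h3 : 0 ≤ ((M : ℝ) - 1) ^ s := (Real.rpow_pos_of_pos hM1 _).le
      nlinarith
  have hRM : R * M ≤ 2 * R * ((M - 1 : ℕ) : ℝ) := by
    rw [hcast]; nlinarith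
  have hM' := hM i0 n0 (hi0.trans hRM) (hn0.trans hRM)
  refine hab.trans ?_
  calc c / 2 ^ |s| * (M : ℝ) ^ s = c * ((M : ℝ) ^ s / 2 ^ |s|) := by ring
    _ ≤ c * ((M - 1 : ℕ) : ℝ) ^ s := mul_le_mul_of_nonneg_left hle hc.le
    _ ≤ ((hits b q (M - 1) U ((b ^ i0 * q ^ n0) • (ξ : TT))).ncard : ℝ) := hM'
    _ ≤ _ := by
      rw [← Set.ncard_coe_finset]
      apply Nat.cast_le.2
      refine Set.ncard_le_ncard_of_injOn (fun u : ℕ × ℕ => (n0 + u.2, i0 + u.1)) ?_ ?_
        (Finset.finite_toSet _)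
      · intro u hu
        obtain ⟨h1, h2, z, hz, hzu⟩ := hu
        simp only [Finset.coe_filter, Finset.mem_product, Finset.mem_Ico, Set.mem_ofPred_eq]
        refine ⟨⟨⟨by omega, by omega⟩, ⟨by omega, by omega⟩⟩, ?_⟩
        have h3 : ((z : ℝ) : TT) =
            (((b ^ (i0 + u.1) * q ^ (n0 + u.2) : ℕ) : ℝ) * ξ : ℝ) := by
          rw [← nsmul_eq_mul, AddCircle.coe_nsmul, show ((z : ℝ) : TT) = _ from hzu, ← mul_nsmul']
          congr 1
          rw [pow_add, pow_add]; ring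
        rw [← sub_eq_zero, ← AddCircle.coe_sub, AddCircle.coe_eq_zero_iff] at h3
        obtain ⟨m, hm⟩ := h3
        simp only [zsmul_eq_mul, mul_one] at hm
        have h4 : (b : ℝ) ^ (i0 + u.1 + k) * ((q : ℝ) ^ (n0 + u.2) * ξ) =
            (b : ℝ) ^ k * z + (((b : ℤ) ^ k * (-m) : ℤ) : ℝ) := by
          push_cast at hm ⊢
          rw [pow_add _ (i0 + u.1) k]
          linear_combination ((b : ℝ) ^ k) * hm
        have h5 : ⌊(b : ℝ) ^ k * z⌋ = (W : ℤ) := by
          rw [Int.floor_eq_iff]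
          obtain ⟨hz1, hz2⟩ := hz
          rw [div_lt_iff₀ hbk] at hz1
          rw [lt_div_iff₀ hbk] at hz2
          push_cast
          constructor <;> linarith
        rw [h4, Int.floor_add_intCast, h5, Int.add_mul_emod_self_left]
        exact Int.emod_eq_of_lt (by positivity) (by exact_mod_cast hW)
      · intro u _ v _ h
        simp only [Prod.mk.injEq] at h
        exact Prod.ext (by omega) (by omega)

end Pool.Agent.TH461.FGK
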