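import Mathlib
import Pool.Agent.TH461.FGK.Two
import Pool.Agent.TH654.FC.Fin

/-!
# Traces and ergodic measures: every exponent `κ > 0`
-/

set_option autoImplicit false

open MeasureTheory Filter Topology
open scoped ComplexOrder

namespace Pool.Agent.TH461.FGK

open Pool.Agent.TH654.FC Pool.Agent.W763.Tr

lemma nc23 {κ : ℝ} (hκ : 0 < κ) : NC 2 3 κ := by
  obtain ⟨κ₀, -, -, h, hNC⟩ := nc (p := 2) (q := 3) le_rfl (by norm_num) irr23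
  rw [h (twoGen_of_coprime le_rfl (by norm_num) (by norm_num))] at hNC
  exact hNC κ hκ

/-- **Traces.** -/
theorem traces {κ : ℝ} (hκ : 0 < κ) : ∃ C : ℝ, 0 < C ∧
    ∀ (s2 s3 t : Equiv.Perm ℚ), (∀ x : ℚ, s2 x = 2 * x) → (∀ x : ℚ, s3 x = 3 * x) →
    (∀ x : ℚ, t x = x + 1) →
    ∀ (G : Subgroup (Equiv.Perm ℚ)), G = Subgroup.closure {s2, s3, t} →
    ∀ φ : G → ℂ, φ 1 = 1 → (∀ g h : G, φ (h * g * h⁻¹) = φ g) →
      (∀ (s : Finset G) (c : G → ℂ), 0 ≤ ∑ i ∈ s, ∑ j ∈ s, star (c j) * c i * φ (j⁻¹ * i)) →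
      (∀ g : G, (∃ r : ℚ, ∀ x : ℚ, (g : Equiv.Perm ℚ) x = x + r) → ∀ n : ℕ, 1 ≤ n →
        1 - (φ (g ^ n)).re ≤ C * (1 + Real.log n) ^ κ * (1 - (φ g).re)) := by
  obtain ⟨C, hC0, hC⟩ := fourier_growth (p := 2) (q := 3) le_rfl hκ (nc23 hκ)
  refine ⟨C, hC0, fun s2 s3 t hs2 hs3 ht G hG φ h1 hcl hpd => ?_⟩
  obtain ⟨τ, S6, μ, D⟩ := data_of hs2 hs3 ht hG h1 hcl hpd
  have := D.prob
  rintro g ⟨r, hg⟩ n hn
  obtain ⟨m, hm⟩ := D.pow hg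
  have a1 := hC μ D.prob D.mp2 D.mp3 m n hn
  rw [D.hμ, D.hμ, ← hm n] at a1
  have a2 := hm 1
  rw [pow_one, Nat.cast_one, mul_one] at a2
  rw [a2]
  exact a1

/-- **Extreme traces.** -/
theorem extreme (s2 s3 t : Equiv.Perm ℚ) (hs2 : ∀ x : ℚ, s2 x = 2 * x) (hs3 : ∀ x : ℚ, s3 x = 3 * x)
    (ht : ∀ x : ℚ, t x = x + 1) (G : Subgroup (Equiv.Perm ℚ))
    (hG : G = Subgroup.closure {s2, s3, t}) (u : G)
    (hu : ∀ x : ℚ, (u : Equiv.Perm ℚ) x = x + 1) (φ : G → ℂ)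
    (hext : φ ∈ Set.extremePoints ℝ {ψ : G → ℂ | ψ 1 = 1 ∧ (∀ g h : G, ψ (h * g * h⁻¹) = ψ g) ∧
      ∀ (s : Finset G) (c : G → ℂ), 0 ≤ ∑ i ∈ s, ∑ j ∈ s, star (c j) * c i * ψ (j⁻¹ * i)}) :
    List.TFAE [
      FiniteDimensional ℂ (Submodule.span ℂ {F : G → ℂ | ∃ n : G,
        (∃ r : ℚ, ∀ x : ℚ, (n : Equiv.Perm ℚ) x = x + r) ∧ F = fun x => φ (n * x)}),
      ∃ n : ℕ, 1 ≤ n ∧ φ (u ^ n) = 1,
      ∃ κ : ℝ, 0 < κ ∧ ∀ᶠ N : ℕ in atTop, ∃ n : ℕ, 1 ≤ n ∧ n ≤ 2 ^ N ∧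
        1 - (φ (u ^ n)).re ≤ (N : ℝ) ^ (-κ),
      ∃ κ : ℝ, 0 < κ ∧ ∃ n : ℕ → ℕ, (∀ N, 1 ≤ n N ∧ n N ≤ 2 ^ N) ∧ Summable (fun N : ℕ =>
        (N : ℝ) ^ (κ - 1) * (1 - (φ (u ^ n N)).re))] := by
  obtain ⟨h1, hcl, hpd⟩ := hext.1
  obtain ⟨τ, S6, μ, D⟩ := data_of hs2 hs3 ht hG h1 hcl hpd
  have := D.prob
  have hun : ∀ n : ℕ, φ (u ^ n) = ∫ x, fourier (n : ℤ) x ∂μ := by
    intro n
    have e : u ^ n = τ n := by
      apply Subtype.ext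
      apply Equiv.ext
      intro x
      rw [D.hτ]
      induction n generalizing x with
      | zero => simp
      | succ n ih =>
        rw [pow_succ, Subgroup.coe_mul, Equiv.Perm.mul_apply, hu, ih]
        push_cast; ring
    rw [e, D.hμ]
  tfae_have 1 → 2 := by
    intro h
    obtain ⟨M, hM1, hM⟩ := exists_kernel D.hτ D.hμ D.h2 h
    refine ⟨M, hM1, ?_⟩
    rw [hun, D.hμ]
    have := hM 1
    rwa [mul_one] at this
  tfae_have 2 → 3 := by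
    rintro ⟨n, hn, h1⟩
    refine ⟨1, one_pos, ?_⟩
    filter_upwards [eventually_ge_atTop n] with N hN
    refine ⟨n, hn, ?_, ?_⟩
    · exact (Nat.lt_two_pow_self).le.trans (Nat.pow_le_pow_right (by norm_num) hN)
    · rw [h1]
      simp only [Complex.one_re, sub_self]
      exact Real.rpow_nonneg (Nat.cast_nonneg _) _
  tfae_have 3 → 1 := by
    rintro ⟨κ', hκ, hr⟩
    simp only [hun] at hr
    have hat := atomic_of_rate le_rfl (by norm_num) (nc23 (half_pos hκ)) μ D.mp2 D.mp3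
      (half_lt_self hκ) hr
    exact finite_dim D.hτ D.h1 D.hcl D.hpd S6 D.hS6 D.hform D.h2 D.h3 (D.kernel hext hat)
  tfae_have 2 → 4 := by
    rintro ⟨n, hn, h1⟩
    refine ⟨1, one_pos, fun N => if n ≤ N then n else 1, ?_, ?_⟩
    · intro N
      by_cases hN : n ≤ N
      · simp only [hN, if_true]
        exact ⟨hn, (Nat.lt_two_pow_self).le.trans (Nat.pow_le_pow_right (by norm_num) hN)⟩
      · simp only [hN, if_false]
        exact ⟨le_rfl, Nat.one_le_two_pow⟩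
    · refine summable_of_ne_finset_zero (s := Finset.range n) fun N hN => ?_
      rw [Finset.mem_range, not_lt] at hN
      simp only [hN, if_true, h1, Complex.one_re, sub_self, mul_zero]
  tfae_have 4 → 1 := by
    rintro ⟨κ, hκ, n, hn, hs⟩
    simp only [hun] at hs
    have hat := atomic_of_summable le_rfl (by norm_num) (nc23 hκ) μ D.mp2 D.mp3 n hn hs
    exact finite_dim D.hτ D.h1 D.hcl D.hpd S6 D.hS6 D.hform D.h2 D.h3 (D.kernel hext hat)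
  tfae_finish

/-- **Jointly ergodic measures.** -/
theorem tfae' {p q : ℕ} (hp : 2 ≤ p) (hq : 2 ≤ q) {κ₀ : ℝ}
    (h : ∀ κ : ℝ, κ₀ < κ → NC p q κ)
    (μ : Measure UnitAddCircle) [IsProbabilityMeasure μ]
    (hμp : MeasurePreserving (fun x : UnitAddCircle => p • x) μ μ)
    (hμq : MeasurePreserving (fun x : UnitAddCircle => q • x) μ μ)
    (herg : ∀ E : Set UnitAddCircle, MeasurableSet E →
      (fun x : UnitAddCircle => p • x) ⁻¹' E = E → (fun x : UnitAddCircle => q • x) ⁻¹' E = E →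
        μ E = 0 ∨ μ E = 1) :
    List.TFAE [
      ∃ F : Set UnitAddCircle, F.Finite ∧ μ F = 1,
      ∃ n : ℕ, 1 ≤ n ∧ ∫ x, fourier (n : ℤ) x ∂μ = 1,
      ∃ κ : ℝ, κ₀ < κ ∧ ∀ᶠ N : ℕ in atTop, ∃ n : ℕ, 1 ≤ n ∧ n ≤ 2 ^ N ∧
        1 - (∫ x, fourier (n : ℤ) x ∂μ).re ≤ (N : ℝ) ^ (-κ),
      ∃ κ : ℝ, κ₀ < κ ∧ ∃ n : ℕ → ℕ, (∀ N, 1 ≤ n N ∧ n N ≤ 2 ^ N) ∧
        Summable (fun N : ℕ => (N : ℝ) ^ (κ - 1) * (1 - (∫ x, fourier (n N : ℤ) x ∂μ).re))] := by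
  have hT0 := Pool.Agent.TH654.FC.tfae hp hq (h (κ₀ + 1) (by linarith)) μ hμp hμq herg
  tfae_have 1 ↔ 2 := hT0.out 0 1
  tfae_have 1 → 3 := by
    intro h1
    obtain ⟨κ', hκ', hr⟩ := (hT0.out 0 2).1 h1
    exact ⟨κ', by linarith, hr⟩
  tfae_have 3 → 1 := by
    rintro ⟨κ, hκ, hr⟩
    obtain ⟨κ1, h1, h2⟩ := exists_between hκ
    have e := (Pool.Agent.TH654.FC.tfae hp hq (h κ1 h1) μ hμp hμq herg).out 0 2
    exact e.2 ⟨κ, h2, hr⟩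
  tfae_have 1 → 4 := by
    intro h1
    exact ⟨κ₀ + 1, by linarith, (hT0.out 0 3).1 h1⟩
  tfae_have 4 → 1 := by
    rintro ⟨κ, hκ, hr⟩
    have e := (Pool.Agent.TH654.FC.tfae hp hq (h κ hκ) μ hμp hμq herg).out 0 3
    exact e.2 hr
  tfae_finish

end Pool.Agent.TH461.FGK
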