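import Mathlib
import Pool.Agent.TH461.FGK.Tr

/-!
# Covering numbers of the orbit of the character `e (x)` in `L ^ 2 (μ)`
-/

set_option autoImplicit false

open MeasureTheory Filter Topology
open scoped ComplexOrder

namespace Pool.Agent.TH461.FGK

open Pool.Agent.TH654.FC Pool.Agent.W763.Tr

/-- the orbit of the character `e (x)` in `L ^ 2 (μ)` can be covered by `C ε ^ (-D)` balls of
radius `ε` centred at characters, for all `0 < ε ≤ 1` -/
def Cov (p q : ℕ) (μ : Measure UnitAddCircle) (C D : ℝ) : Prop :=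
  ∀ ε : ℝ, 0 < ε → ε ≤ 1 → ∃ S : Finset ℤ, (S.card : ℝ) ≤ C * ε ^ (-D) ∧
    ∀ i j : ℕ, ∃ m ∈ S,
      ∫ x, ‖fourier ((p ^ i * q ^ j : ℕ) : ℤ) x - fourier m x‖ ^ 2 ∂μ ≤ ε ^ 2

/-- polynomial covering numbers force the measure to be atomic -/
theorem atomic_of_cov {p q : ℕ} (hp : 2 ≤ p) (hq : 2 ≤ q)
    (hirr : Irrational (Real.log (p : ℝ) / Real.log (q : ℝ))) {κ : ℝ} (hκ : 0 < κ)
    (h : NC p q κ) (μ : Measure UnitAddCircle) [IsProbabilityMeasure μ]
    (hμp : MeasurePreserving (fun x : UnitAddCircle => p • x) μ μ)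
    (hμq : MeasurePreserving (fun x : UnitAddCircle => q • x) μ μ) {C D : ℝ} (hD0 : 0 < D)
    (hD : D * κ < 4) (hcov : Cov p q μ C D) : μ Tors = 1 := by
  by_contra hne
  have hc0 : μ Torsᶜ ≠ 0 := by
    intro h0
    apply hne
    rwa [prob_compl_eq_zero_iff tors_meas] at h0
  have hct : μ Torsᶜ ≠ ⊤ := measure_ne_top _ _
  set ν : Measure UnitAddCircle := (μ Torsᶜ)⁻¹ • μ.restrict Torsᶜ with hν
  have hνprob : IsProbabilityMeasure ν := by
    refine ⟨?_⟩
    rw [hν]
    simp only [Measure.smul_apply, Measure.restrict_apply_univ, smul_eq_mul]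
    exact ENNReal.inv_mul_cancel hc0 hct
  obtain ⟨C0, hC0⟩ := h
  have hat : ∀ x : UnitAddCircle, ν {x} = 0 := by
    intro x
    rw [hν, Measure.smul_apply, Measure.restrict_apply (measurableSet_singleton _)]
    by_cases hx : x ∈ Tors
    · have : ({x} ∩ Torsᶜ : Set UnitAddCircle) = ∅ := by
        ext y; simp only [Set.mem_inter_iff, Set.mem_singleton_iff, Set.mem_compl_iff,
          Set.mem_empty_iff_false, iff_false, not_and, not_not]
        rintro rfl; exact hx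
      rw [this]; simp
    · have h0 := atom_tors hp hμp hx
      have : μ ({x} ∩ Torsᶜ) = 0 := measure_mono_null Set.inter_subset_left h0
      rw [this]; simp
  have h1 := fun n hn => Pool.Agent.H261R2.FU.diverges hp hC0 ν (continuous_part hp hμp)
    (continuous_part hq hμq) hat n hn
  have h2 := fun κ' hκ' N0 => Pool.Agent.H261R2.FU.dirichlet (μ := ν) h1 κ' hκ' N0
  have h3 := fun κ' hκ' N0 => Pool.Agent.H261R2.FU.separated hp hq (μ := ν) hκ h2 κ' hκ' N0
  set c : ℝ := (μ Torsᶜ).toReal with hc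
  have hcpos : 0 < c := ENNReal.toReal_pos hc0 hct
  have hc1 : c ≤ 1 := by
    have := prob_le_one (μ := μ) (s := Torsᶜ)
    have h5 := ENNReal.toReal_mono ENNReal.one_ne_top this
    simpa using h5
  have hs0 : 0 < √c := Real.sqrt_pos.2 hcpos
  have hs1 : √c ≤ 1 := Real.sqrt_le_one.2 hc1
  obtain ⟨ε, hε0, hε1, hε⟩ := Pool.Agent.H261R2.FU.dimension hp hq hirr (μ := ν) hκ h3 D
    (C * (√c) ^ (-D)) hD0 hD
  obtain ⟨S, hS1, hS2⟩ := hcov (ε * √c) (by positivity) (by nlinarith)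
  have h6 := hε S (fun i j => ?_)
  · rw [Real.mul_rpow hε0.le hs0.le] at hS1
    have : C * (ε ^ (-D) * √c ^ (-D)) = C * √c ^ (-D) * ε ^ (-D) := by ring
    rw [this] at hS1
    linarith
  · obtain ⟨m, hm, h7⟩ := hS2 i j
    refine ⟨m, hm, ?_⟩
    set f : UnitAddCircle → ℝ :=
      fun x => ‖(fourier ((p ^ i * q ^ j : ℕ) : ℤ) x : ℂ) - fourier m x‖ ^ 2 with hf
    have h8 : ∫ x, f x ∂ν = c⁻¹ * ∫ x in Torsᶜ, f x ∂μ := by
      rw [hν, integral_smul_measure, ENNReal.toReal_inv, smul_eq_mul]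
    have hint : Integrable f μ := by
      have hcont : Continuous f := by
        rw [hf]; fun_prop
      exact hcont.integrable_of_hasCompactSupport (HasCompactSupport.of_compactSpace _)
    have h9 : ∫ x in Torsᶜ, f x ∂μ ≤ ∫ x, f x ∂μ :=
      setIntegral_le_integral hint (Filter.Eventually.of_forall fun x => by
        simp only [hf]; positivity)
    change ∫ x, f x ∂ν ≤ ε ^ 2
    rw [h8]
    calc c⁻¹ * ∫ x in Torsᶜ, f x ∂μ ≤ c⁻¹ * (ε * √c) ^ 2 := by
          refine mul_le_mul_of_nonneg_left (h9.trans h7) (by positivity)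
      _ = ε ^ 2 := by
          rw [mul_pow, Real.sq_sqrt hcpos.le]
          field_simp

/-- a measure carried by the `n`-torsion has bounded covering numbers -/
lemma cov_of_torsion (p q : ℕ) (μ : Measure UnitAddCircle) [IsProbabilityMeasure μ] {n : ℕ}
    (hn : 1 ≤ n) (hμ : μ {y | n • y = 0} = 1) : Cov p q μ n 1 := by
  intro ε hε0 hε1
  have hn0 : (n : ℤ) ≠ 0 := by exact_mod_cast (by omega : n ≠ 0)
  have hnpos : (0 : ℤ) < n := by exact_mod_cast (by omega : 0 < n)
  refine ⟨(Finset.range n).image (fun k : ℕ => (k : ℤ)), ?_, ?_⟩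
  · have h1 : (((Finset.range n).image (fun k : ℕ => (k : ℤ))).card : ℝ) ≤ n := by
      have := Finset.card_image_le (s := Finset.range n) (f := fun k : ℕ => (k : ℤ))
      rw [Finset.card_range] at this
      exact_mod_cast this
    refine h1.trans ?_
    have h2 : 1 ≤ ε ^ (-(1 : ℝ)) := Real.one_le_rpow_of_pos_of_le_one_of_nonpos hε0 hε1 (by norm_num)
    exact le_mul_of_one_le_right (Nat.cast_nonneg _) h2
  · intro i j
    set k : ℤ := ((p ^ i * q ^ j : ℕ) : ℤ) with hk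
    have hr0 : 0 ≤ k % n := Int.emod_nonneg _ hn0
    have hr1 : k % n < n := Int.emod_lt_of_pos _ hnpos
    refine ⟨k % n, ?_, ?_⟩
    · rw [Finset.mem_image]
      refine ⟨(k % n).toNat, ?_, ?_⟩
      · rw [Finset.mem_range]; omega
      · exact Int.toNat_of_nonneg hr0
    · have hae : ∀ᵐ x ∂μ, ‖(fourier k x : ℂ) - fourier (k % n) x‖ ^ 2 = 0 := by
        have hm : MeasurableSet {y : UnitAddCircle | n • y = 0} :=
          (isClosed_eq (by fun_prop) continuous_const).measurableSet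
        have h0 : μ {y : UnitAddCircle | n • y = 0}ᶜ = 0 := by
          rwa [prob_compl_eq_zero_iff hm]
        rw [ae_iff]
        refine measure_mono_null ?_ h0
        intro y hy
        simp only [Set.mem_compl_iff, Set.mem_ofPred_eq]
        intro hy2
        apply hy
        have h3 : k • y = (k % n) • y := by
          conv_lhs => rw [← Int.emod_add_mul_ediv k n]
          rw [add_smul, mul_comm (n : ℤ), mul_smul, natCast_zsmul, hy2, smul_zero, add_zero]
        rw [fourier_apply, fourier_apply, h3]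
        simp
      rw [integral_congr_ae hae]
      simp only [integral_zero]
      positivity

/-- **Jointly ergodic measures**, with the covering numbers. -/
theorem tfae5 {p q : ℕ} (hp : 2 ≤ p) (hq : 2 ≤ q)
    (hirr : Irrational (Real.log (p : ℝ) / Real.log (q : ℝ))) {κ₀ : ℝ} (h0 : 0 ≤ κ₀) (h1 : κ₀ < 1)
    (h : ∀ κ : ℝ, κ₀ < κ → NC p q κ)
    (μ : Measure UnitAddCircle) [IsProbabilityMeasure μ]
    (hμp : MeasurePreserving (fun x : UnitAddCircle => p • x) μ μ)
    (hμq : MeasurePreserving (fun x : UnitAddCircle => q • x) μ μ)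
    (herg : ∀ E : Set UnitAddCircle, MeasurableSet E →
      (fun x : UnitAddCircle => p • x) ⁻¹' E = E → (fun x : UnitAddCircle => q • x) ⁻¹' E = E →
        μ E = 0 ∨ μ E = 1) :
    List.TFAE [
      ∃ F : Set UnitAddCircle, F.Finite ∧ μ F = 1,
      ∃ n : ℕ, 1 ≤ n ∧ ∫ x, fourier (n : ℤ) x ∂μ = 1,
      ∃ κ : ℝ, κ₀ < κ ∧ ∀ᶠ N : ℕ in atTop, ∃ n : ℕ, 1 ≤ n ∧ n ≤ 2 ^ N ∧
        1 - (∫ x, fourier (n : ℤ) x ∂μ).re ≤ (N : ℝ) ^ (-κ),
      ∃ κ : ℝ, κ₀ < κ ∧ ∃ n : ℕ → ℕ, (∀ N, 1 ≤ n N ∧ n N ≤ 2 ^ N) ∧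
        Summable (fun N : ℕ => (N : ℝ) ^ (κ - 1) * (1 - (∫ x, fourier (n N : ℤ) x ∂μ).re)),
      ∃ C D : ℝ, 0 < D ∧ D * κ₀ < 4 ∧ Cov p q μ C D] := by
  have hT := tfae' hp hq h μ hμp hμq herg
  have key : μ Tors = 1 → ∃ x : UnitAddCircle, μ {x} ≠ 0 := by
    intro h1
    by_contra hcon
    push Not at hcon
    have : μ Tors = 0 := by
      rw [← Set.biUnion_of_singleton Tors]
      exact (measure_biUnion_null_iff tors_countable).mpr fun x _ => hcon x
    rw [this] at h1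
    exact absurd h1 (by simp)
  tfae_have 1 ↔ 2 := hT.out 0 1
  tfae_have 1 ↔ 3 := hT.out 0 2
  tfae_have 1 ↔ 4 := hT.out 0 3
  tfae_have 1 → 5 := by
    rintro ⟨F, hF, hF1⟩
    have hx : ∃ x : UnitAddCircle, μ {x} ≠ 0 := by
      by_contra hcon
      push Not at hcon
      have : μ F = 0 := by
        rw [← Set.biUnion_of_singleton F]
        exact (measure_biUnion_null_iff hF.countable).mpr fun x _ => hcon x
      rw [this] at hF1
      exact absurd hF1 (by simp)
    obtain ⟨x, hx⟩ := hx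
    obtain ⟨n, e1, e2, -⟩ := finite_of_erg hp hq μ hμp hμq herg hx
    exact ⟨n, 1, one_pos, by linarith, cov_of_torsion p q μ e1 e2⟩
  tfae_have 5 → 1 := by
    rintro ⟨C, D, hD0, hD, hcov⟩
    obtain ⟨κ, e1, e2⟩ : ∃ κ, κ₀ < κ ∧ κ < 4 / D :=
      exists_between (by rw [lt_div_iff₀ hD0]; linarith)
    rw [lt_div_iff₀ hD0] at e2
    have ha := atomic_of_cov hp hq hirr (lt_of_le_of_lt h0 e1) (h κ e1) μ hμp hμq hD0
      (by linarith) hcov
    obtain ⟨x, hx⟩ := key ha
    obtain ⟨n, -, e3, e4⟩ := finite_of_erg hp hq μ hμp hμq herg hx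
    exact ⟨_, e4, e3⟩
  tfae_finish

end Pool.Agent.TH461.FGK
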