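import Mathlib
import Pool.Agent.TH461.FGK.Cov

/-!
# Covering numbers for the extreme traces
-/

set_option autoImplicit false

open MeasureTheory Filter Topology
open scoped ComplexOrder

namespace Pool.Agent.TH461.FGK

open Pool.Agent.TH654.FC Pool.Agent.W763.Tr

lemma norm_sub_sq_fourier (k m : ℤ) (x : UnitAddCircle) :
    ‖(fourier k x : ℂ) - fourier m x‖ ^ 2 = 2 - 2 * (fourier (k - m) x : ℂ).re := by
  have hk : ‖(fourier k x : ℂ)‖ = 1 := norm_fourier_eq k x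
  have hm : ‖(fourier m x : ℂ)‖ = 1 := norm_fourier_eq m x
  have e : (fourier (k - m) x : ℂ) = fourier k x * (starRingEnd ℂ) (fourier m x) := by
    rw [sub_eq_add_neg, fourier_add, fourier_neg]
  have h1 : (fourier k x : ℂ).re ^ 2 + (fourier k x : ℂ).im ^ 2 = 1 := by
    have := Complex.sq_norm (fourier k x : ℂ)
    rw [hk, Complex.normSq_apply] at this
    nlinarith
  have h2 : (fourier m x : ℂ).re ^ 2 + (fourier m x : ℂ).im ^ 2 = 1 := by
    have := Complex.sq_norm (fourier m x : ℂ)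
    rw [hm, Complex.normSq_apply] at this
    nlinarith
  rw [e, Complex.sq_norm, Complex.normSq_apply]
  simp only [Complex.sub_re, Complex.sub_im, Complex.mul_re, Complex.conj_re, Complex.conj_im]
  nlinarith

lemma int_norm_sub_sq (μ : Measure UnitAddCircle) [IsProbabilityMeasure μ] (k m : ℤ) :
    ∫ x, ‖(fourier k x : ℂ) - fourier m x‖ ^ 2 ∂μ =
      2 - 2 * (∫ x, (fourier (k - m) x : ℂ) ∂μ).re := by
  have hi : Integrable (fun x : UnitAddCircle => (fourier (k - m) x : ℂ)) μ :=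
    (by fun_prop : Continuous (fun x : UnitAddCircle =>
      (fourier (k - m) x : ℂ))).integrable_of_hasCompactSupport (HasCompactSupport.of_compactSpace _)
  simp only [norm_sub_sq_fourier]
  have hre : Integrable (fun x : UnitAddCircle => (fourier (k - m) x : ℂ).re) μ := hi.re
  have h1 : ∫ x, (fourier (k - m) x : ℂ).re ∂μ = (∫ x, (fourier (k - m) x : ℂ) ∂μ).re :=
    integral_re hi
  rw [integral_sub (integrable_const _) (hre.const_mul 2), integral_const_mul, h1]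
  simp

lemma zpow_trans {G : Subgroup (Equiv.Perm ℚ)} {u : G}
    (hu : ∀ x : ℚ, (u : Equiv.Perm ℚ) x = x + 1) (k : ℤ) (x : ℚ) :
    ((u ^ k : G) : Equiv.Perm ℚ) x = x + k := by
  induction k generalizing x with
  | zero => simp
  | succ n ih =>
    rw [zpow_add_one, Subgroup.coe_mul, Equiv.Perm.mul_apply, hu, ih]
    push_cast; ring
  | pred n ih =>
    have : u ^ (-(n : ℤ)) = u ^ (-(n : ℤ) - 1) * u := by rw [← zpow_add_one]; congr 1; ring
    have h5 := ih (x - 1)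
    rw [this, Subgroup.coe_mul, Equiv.Perm.mul_apply, hu] at h5
    rw [sub_add_cancel] at h5
    rw [h5]; push_cast; ring

/-- **Extreme traces: covering numbers.** -/
theorem extreme_cov (s2 s3 t : Equiv.Perm ℚ) (hs2 : ∀ x : ℚ, s2 x = 2 * x)
    (hs3 : ∀ x : ℚ, s3 x = 3 * x)
    (ht : ∀ x : ℚ, t x = x + 1) (G : Subgroup (Equiv.Perm ℚ))
    (hG : G = Subgroup.closure {s2, s3, t}) (u : G)
    (hu : ∀ x : ℚ, (u : Equiv.Perm ℚ) x = x + 1) (φ : G → ℂ)
    (hext : φ ∈ Set.extremePoints ℝ {ψ : G → ℂ | ψ 1 = 1 ∧ (∀ g h : G, ψ (h * g * h⁻¹) = ψ g) ∧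
      ∀ (s : Finset G) (c : G → ℂ), 0 ≤ ∑ i ∈ s, ∑ j ∈ s, star (c j) * c i * ψ (j⁻¹ * i)}) :
    List.TFAE [
      FiniteDimensional ℂ (Submodule.span ℂ {F : G → ℂ | ∃ n : G,
        (∃ r : ℚ, ∀ x : ℚ, (n : Equiv.Perm ℚ) x = x + r) ∧ F = fun x => φ (n * x)}),
      ∃ S : Finset ℤ, ∀ i j : ℕ, ∃ m ∈ S, φ (u ^ ((2 : ℤ) ^ i * 3 ^ j - m)) = 1,
      ∃ C D : ℝ, 0 < D ∧ ∀ ε : ℝ, 0 < ε → ε ≤ 1 → ∃ S : Finset ℤ, (S.card : ℝ) ≤ C * ε ^ (-D) ∧
        ∀ i j : ℕ, ∃ m ∈ S, 2 - 2 * (φ (u ^ ((2 : ℤ) ^ i * 3 ^ j - m))).re ≤ ε ^ 2] := by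
  obtain ⟨h1, hcl, hpd⟩ := hext.1
  obtain ⟨τ, S6, μ, D⟩ := data_of hs2 hs3 ht hG h1 hcl hpd
  have := D.prob
  have hun : ∀ k : ℤ, u ^ k = τ k := by
    intro k
    apply Subtype.ext
    apply Equiv.ext
    intro x
    rw [D.hτ, zpow_trans hu]
  tfae_have 1 → 2 := by
    intro h
    obtain ⟨M, hM1, hM⟩ := exists_kernel D.hτ D.hμ D.h2 h
    have hM0 : (M : ℤ) ≠ 0 := by exact_mod_cast (by omega : M ≠ 0)
    have hMpos : (0 : ℤ) < M := by exact_mod_cast (by omega : 0 < M)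
    refine ⟨(Finset.range M).image (fun k : ℕ => (k : ℤ)), fun i j => ?_⟩
    set k : ℤ := (2 : ℤ) ^ i * 3 ^ j with hk
    have hr0 : 0 ≤ k % M := Int.emod_nonneg _ hM0
    have hr1 : k % M < M := Int.emod_lt_of_pos _ hMpos
    refine ⟨k % M, ?_, ?_⟩
    · rw [Finset.mem_image]
      refine ⟨(k % M).toNat, ?_, ?_⟩
      · rw [Finset.mem_range]; omega
      · exact Int.toNat_of_nonneg hr0
    · have e : k - k % M = M * (k / M) := by
        have := Int.emod_add_mul_ediv k M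
        linarith
      rw [e, hun]
      exact hM _
  tfae_have 2 → 3 := by
    rintro ⟨S, hS⟩
    refine ⟨S.card, 1, one_pos, fun ε h0 h1 => ⟨S, ?_, fun i j => ?_⟩⟩
    · exact le_mul_of_one_le_right (Nat.cast_nonneg _)
        (Real.one_le_rpow_of_pos_of_le_one_of_nonpos h0 h1 (by norm_num))
    · obtain ⟨m, hm, h3⟩ := hS i j
      refine ⟨m, hm, ?_⟩
      rw [h3]
      simp only [Complex.one_re]
      nlinarith [sq_nonneg ε]
  tfae_have 3 → 1 := by
    rintro ⟨C, D', hD0, hcov⟩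
    have hcov' : Cov 2 3 μ C D' := by
      intro ε h0 h1
      obtain ⟨S, hS1, hS2⟩ := hcov ε h0 h1
      refine ⟨S, hS1, fun i j => ?_⟩
      obtain ⟨m, hm, h3⟩ := hS2 i j
      refine ⟨m, hm, ?_⟩
      rw [int_norm_sub_sq, D.hμ, ← hun]
      push_cast
      exact h3
    have hat := atomic_of_cov le_rfl (by norm_num) irr23 (κ := 1 / D') (by positivity)
      (nc23 (by positivity)) μ D.mp2 D.mp3 hD0 (by rw [mul_one_div_cancel hD0.ne']; norm_num) hcov'
    exact finite_dim D.hτ D.h1 D.hcl D.hpd S6 D.hS6 D.hform D.h2 D.h3 (D.kernel hext hat)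
  tfae_finish

end Pool.Agent.TH461.FGK
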